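import Pool.Agent.SubLat.Defs

set_option autoImplicit false

namespace Pool.Agent.SubLat

universe u v w

section pts
variable {R : Type u} [Field R]

/-- the point with given homogeneous coordinates -/
def pt (a b c : R) : Submodule R (Fin 3 → R) := Submodule.span R {![a, b, c]}

lemma mem_pt (a b c : R) (x : Fin 3 → R) :
    x ∈ pt a b c ↔ ∃ r : R, r * a = x 0 ∧ r * b = x 1 ∧ r * c = x 2 := by
  rw [pt, Submodule.mem_span_singleton]
  constructor
  · rintro ⟨r, rfl⟩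
    exact ⟨r, by simp, by simp, by simp⟩
  · rintro ⟨r, h0, h1, h2⟩
    refine ⟨r, ?_⟩
    ext i
    fin_cases i
    · simpa using h0
    · simpa using h1
    · simpa using h2

lemma pt_le_sup1 : pt (1 : R) 0 0 ≤ pt 1 0 (-1) ⊔ pt 0 0 1 := by
  intro x hx
  rw [mem_pt] at hx
  obtain ⟨r, h0, h1, h2⟩ := hx
  rw [Submodule.mem_sup]
  refine ⟨![r, 0, -r], ?_, ![0, 0, r], ?_, ?_⟩
  · rw [mem_pt]; exact ⟨r, by simp, by simp, by simp⟩
  · rw [mem_pt]; exact ⟨r, by simp, by simp, by simp⟩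
  · ext i
    fin_cases i
    · simpa using h0
    · simpa using h1
    · simpa using h2

lemma pt_le_sup2 : pt (0 : R) 0 1 ≤ pt 0 1 1 ⊔ pt 0 1 0 := by
  intro x hx
  rw [mem_pt] at hx
  obtain ⟨r, h0, h1, h2⟩ := hx
  rw [Submodule.mem_sup]
  refine ⟨![0, r, r], ?_, ![0, -r, 0], ?_, ?_⟩
  · rw [mem_pt]; exact ⟨r, by simp, by simp, by simp⟩
  · rw [mem_pt]; exact ⟨-r, by simp, by simp, by simp⟩
  · ext i
    fin_cases i
    · simpa using h0
    · simpa using h1
    · simpa using h2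

lemma inf_le3 (n : R) : (pt 1 n 0 ⊔ pt 0 0 1) ⊓ (pt 1 0 (-1) ⊔ pt 0 1 0) ≤ pt 1 n (-1) := by
  rintro x ⟨h1, h2⟩
  obtain ⟨a, ha, b, hb, hab⟩ := Submodule.mem_sup.1 h1
  obtain ⟨c, hc, d, hd, hcd⟩ := Submodule.mem_sup.1 h2
  rw [mem_pt] at ha hb hc hd
  obtain ⟨ra, ha0, ha1, ha2⟩ := ha
  obtain ⟨rb, hb0, hb1, hb2⟩ := hb
  obtain ⟨rc, hc0, hc1, hc2⟩ := hc
  obtain ⟨rd, hd0, hd1, hd2⟩ := hd
  rw [mem_pt]
  have e0 := congrFun hab 0
  have e1 := congrFun hab 1
  have e2 := congrFun hab 2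
  have f0 := congrFun hcd 0
  have f1 := congrFun hcd 1
  have f2 := congrFun hcd 2
  simp only [Pi.add_apply] at e0 e1 e2 f0 f1 f2
  refine ⟨ra, ?_, ?_, ?_⟩
  · rw [← e0, ← ha0, ← hb0]; ring
  · rw [← e1, ← ha1, ← hb1]; ring
  · have : ra = rc := by
      have : a 0 + b 0 = c 0 + d 0 := e0.trans f0.symm
      rw [← ha0, ← hb0, ← hc0, ← hd0] at this
      linear_combination this
    rw [this, ← f2, ← hc2, ← hd2]; ring

lemma inf_le4 (n : R) : (pt 1 n (-1) ⊔ pt 0 1 1) ⊓ (pt 1 0 0 ⊔ pt 0 1 0) ≤ pt 1 (n + 1) 0 := by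
  rintro x ⟨h1, h2⟩
  obtain ⟨a, ha, b, hb, hab⟩ := Submodule.mem_sup.1 h1
  obtain ⟨c, hc, d, hd, hcd⟩ := Submodule.mem_sup.1 h2
  rw [mem_pt] at ha hb hc hd
  obtain ⟨ra, ha0, ha1, ha2⟩ := ha
  obtain ⟨rb, hb0, hb1, hb2⟩ := hb
  obtain ⟨rc, hc0, hc1, hc2⟩ := hc
  obtain ⟨rd, hd0, hd1, hd2⟩ := hd
  rw [mem_pt]
  have e0 := congrFun hab 0
  have e1 := congrFun hab 1
  have e2 := congrFun hab 2
  have f0 := congrFun hcd 0
  have f1 := congrFun hcd 1
  have f2 := congrFun hcd 2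
  simp only [Pi.add_apply] at e0 e1 e2 f0 f1 f2
  have hr : ra = rb := by
    have : a 2 + b 2 = c 2 + d 2 := e2.trans f2.symm
    rw [← ha2, ← hb2, ← hc2, ← hd2] at this
    linear_combination -this
  refine ⟨ra, ?_, ?_, ?_⟩
  · rw [← e0, ← ha0, ← hb0]; ring
  · rw [← e1, ← ha1, ← hb1, ← hr]; ring
  · rw [← f2, ← hc2, ← hd2]; ring

lemma inf5a : pt (1 : R) 0 0 ⊓ pt 0 1 0 = ⊥ := by
  rw [eq_bot_iff]
  rintro x ⟨ha, hb⟩
  rw [SetLike.mem_coe, mem_pt] at ha hb
  obtain ⟨ra, ha0, ha1, ha2⟩ := ha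
  obtain ⟨rb, hb0, hb1, hb2⟩ := hb
  rw [Submodule.mem_bot]
  ext i
  fin_cases i
  · simpa using hb0.symm
  · simpa using ha1.symm
  · simpa using ha2.symm

lemma inf5b : pt (0 : R) 0 1 ⊓ pt 0 1 1 = ⊥ := by
  rw [eq_bot_iff]
  rintro x ⟨ha, hb⟩
  rw [SetLike.mem_coe, mem_pt] at ha hb
  obtain ⟨ra, ha0, ha1, ha2⟩ := ha
  obtain ⟨rb, hb0, hb1, hb2⟩ := hb
  rw [Submodule.mem_bot]
  have h1 : x 1 = 0 := by simpa using ha1.symm
  have h2 : rb = 0 := by rw [h1] at hb1; simpa using hb1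
  ext i
  fin_cases i
  · simpa using hb0.symm
  · simpa using h1
  · rw [h2] at hb2; simpa using hb2.symm

lemma inf5c : pt (1 : R) 0 0 ⊓ pt 1 0 (-1) = ⊥ := by
  rw [eq_bot_iff]
  rintro x ⟨ha, hb⟩
  rw [SetLike.mem_coe, mem_pt] at ha hb
  obtain ⟨ra, ha0, ha1, ha2⟩ := ha
  obtain ⟨rb, hb0, hb1, hb2⟩ := hb
  rw [Submodule.mem_bot]
  have h1 : x 2 = 0 := by simpa using ha2.symm
  have h2 : rb = 0 := by rw [h1] at hb2; simpa using hb2
  ext i
  fin_cases i
  · rw [h2] at hb0; simpa using hb0.symm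
  · simpa using hb1.symm
  · simpa using h1

lemma pt_ne_bot : pt (1 : R) 0 0 ≠ ⊥ := by
  intro h
  have : (![1, 0, 0] : Fin 3 → R) ∈ pt (1 : R) 0 0 := by
    rw [mem_pt]; exact ⟨1, by simp, by simp, by simp⟩
  rw [h, Submodule.mem_bot] at this
  have := congrFun this 0
  simp at this

end pts

/-- If the subspace lattice of `R³` embeds into the lattice of subspaces of a vector space over
`F`, then every natural number which vanishes in `R` vanishes in `F`. -/
theorem char_lemma {R : Type u} [Field R] {F : Type v} [Field F] {V : Type w} [AddCommGroup V]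
    [Module F V] (g : LatticeHom (Submodule R (Fin 3 → R)) (Submodule F V))
    (hg : Function.Injective g) (p : ℕ) (hp : (p : R) = 0) : (p : F) = 0 := by
  by_contra hpF
  have hbot : ∀ X : Submodule R (Fin 3 → R), g ⊥ ≤ g X := fun X => OrderHomClass.mono g bot_le
  -- choose a in A \ O
  have hA : ¬ g (pt 1 0 0) ≤ g ⊥ := by
    intro h
    exact pt_ne_bot (hg (le_antisymm h (hbot _)))
  obtain ⟨a, haA, haO⟩ := SetLike.not_le_iff_exists.1 hA
  have h1 : a ∈ g (pt 1 0 (-1)) ⊔ g (pt 0 0 1) := by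
    rw [← map_sup]; exact OrderHomClass.mono g pt_le_sup1 haA
  obtain ⟨x, hx, c, hc, hxc⟩ := Submodule.mem_sup.1 h1
  have h2 : c ∈ g (pt 0 1 1) ⊔ g (pt 0 1 0) := by
    rw [← map_sup]; exact OrderHomClass.mono g pt_le_sup2 hc
  obtain ⟨y, hy, b', hb', hyb⟩ := Submodule.mem_sup.1 h2
  set b : V := -b' with hb_def
  have hb : b ∈ g (pt 0 1 0) := Submodule.neg_mem _ hb'
  have hac : a - c ∈ g (pt 1 0 (-1)) := by
    rw [← hxc]; simpa using hx
  have hbc : b + c ∈ g (pt 0 1 1) := by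
    rw [← hyb, hb_def]; simpa using hy
  have key : ∀ n : ℕ, a + (n : F) • b ∈ g (pt 1 (n : R) 0) := by
    intro n
    induction n with
    | zero => simpa using haA
    | succ n ih =>
      have e1 : a + (n : F) • b - c ∈ g (pt 1 (n : R) (-1)) := by
        apply OrderHomClass.mono g (inf_le3 (n : R))
        rw [map_inf, map_sup, map_sup]
        constructor
        · exact Submodule.sub_mem _ (Submodule.mem_sup_left ih) (Submodule.mem_sup_right hc)
        · have : a + (n : F) • b - c = (a - c) + (n : F) • b := by abel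
          rw [this]
          exact Submodule.add_mem _ (Submodule.mem_sup_left hac)
            (Submodule.mem_sup_right (Submodule.smul_mem _ _ hb))
      have e2 : a + ((n + 1 : ℕ) : F) • b ∈ g ((pt 1 (n : R) (-1) ⊔ pt 0 1 1) ⊓
          (pt 1 0 0 ⊔ pt 0 1 0)) := by
        rw [map_inf, map_sup, map_sup]
        constructor
        · have : a + ((n + 1 : ℕ) : F) • b = (a + (n : F) • b - c) + (b + c) := by
            push_cast
            rw [add_smul, one_smul]
            abel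
          rw [this]
          exact Submodule.add_mem _ (Submodule.mem_sup_left e1) (Submodule.mem_sup_right hbc)
        · exact Submodule.add_mem _ (Submodule.mem_sup_left haA)
            (Submodule.mem_sup_right (Submodule.smul_mem _ _ hb))
      have e3 := OrderHomClass.mono g (inf_le4 (n : R)) e2
      push_cast
      push_cast at e3
      exact e3
  have h3 := key p
  rw [hp] at h3
  have h4 : (p : F) • b ∈ g (pt 1 0 0) := by
    have := Submodule.sub_mem _ h3 haA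
    simpa using this
  have h5 : (p : F) • b ∈ g ⊥ := by
    rw [← inf5a, map_inf]
    exact ⟨h4, Submodule.smul_mem _ _ hb⟩
  have h6 : b ∈ g ⊥ := by
    have := Submodule.smul_mem _ (p : F)⁻¹ h5
    rwa [smul_smul, inv_mul_cancel₀ hpF, one_smul] at this
  have h7 : c ∈ g ⊥ := by
    rw [← inf5b, map_inf]
    refine ⟨hc, ?_⟩
    have := Submodule.sub_mem _ hbc (hbot _ h6)
    simpa using this
  apply haO
  rw [← inf5c, map_inf]
  refine ⟨haA, ?_⟩
  have := Submodule.add_mem _ hac (hbot _ h7)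
  simpa using this

end Pool.Agent.SubLat
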