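import Mathlib

set_option autoImplicit false

universe u

open FirstOrder

namespace Pool.Agent.SubLat

/-- The function symbols of the language of lattices: binary join and binary meet. -/
inductive LatFunc : ℕ → Type
  | join : LatFunc 2
  | meet : LatFunc 2

/-- The first-order language of lattices: two binary function symbols, no constants, no relation
symbols (equality is part of the logic). -/
def latLang : Language := ⟨LatFunc, fun _ => Empty⟩

/-- A lattice regarded as a structure for the language of lattices. -/
@[reducible] def latStructure (L : Type u) [Lattice L] : latLang.Structure L where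
  funMap {n} f := match n, f with
    | _, LatFunc.join => fun v => v 0 ⊔ v 1
    | _, LatFunc.meet => fun v => v 0 ⊓ v 1
  RelMap {_} r := Empty.elim r

/-- The lattice `L` satisfies the sentence `φ`. -/
def Satisfies (L : Type u) [Lattice L] (φ : latLang.Sentence) : Prop :=
  @Language.Sentence.Realize latLang L (latStructure L) φ

/-- The class `𝒦`: lattices isomorphic to a sublattice of the lattice of all subspaces of some
vector space `V` over some (commutative) field `F`; that is, lattices with an injective lattice
homomorphism into some `Sub(V)`. -/
def InK (L : Type u) [Lattice L] : Prop :=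
  ∃ (F : Type u) (_ : Field F) (V : Type u) (_ : AddCommGroup V) (_ : Module F V)
    (f : LatticeHom L (Submodule F V)), Function.Injective f

/-- A sentence is an identity if it is `∀ x₁ … xₙ, s(x) = t(x)` for lattice terms `s`, `t`. -/
def IsIdentity (φ : latLang.Sentence) : Prop :=
  ∃ (n : ℕ) (s t : latLang.Term (Empty ⊕ Fin n)), φ = (s.bdEqual t).alls

/-- A set `S` of sentences specifies the class `𝒦` if a (nonempty) lattice lies in `𝒦` exactly
when it satisfies every member of `S`. -/
def Specifies (S : Set latLang.Sentence) : Prop :=
  ∀ (L : Type u) [Lattice L] [Nonempty L], InK L ↔ ∀ φ ∈ S, Satisfies L φ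

end Pool.Agent.SubLat
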