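import Pool.Agent.SubLat.Ultra

set_option autoImplicit false

namespace Pool.Agent.SubLat

universe u

open Filter FirstOrder

/-- the field with `p` elements, in an arbitrary universe -/
abbrev Fp (p : ℕ) : Type u := ULift.{u} (ZMod p)

/-- the lattice of subspaces of the three-dimensional space over the field with `p` elements -/
abbrev PL (p : ℕ) [Fact p.Prime] : Type u := Submodule (Fp.{u} p) (Fin 3 → Fp.{u} p)

lemma natCast_Fp (p k : ℕ) : ((k : Fp.{u} p)) = 0 ↔ p ∣ k := by
  rw [← ZMod.natCast_eq_zero_iff]
  constructor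
  · intro h
    exact congrArg ULift.down h
  · intro h
    exact ULift.ext _ _ h

lemma inK_PL (p : ℕ) [Fact p.Prime] : InK (PL.{u} p) :=
  ⟨Fp.{u} p, inferInstance, Fin 3 → Fp.{u} p, inferInstance, inferInstance,
    LatticeHom.id _, fun _ _ h => h⟩

/-- The product of two planes of different characteristics is not in the class. -/
lemma not_inK_prod (p q : ℕ) [hp : Fact p.Prime] [hq : Fact q.Prime] (hpq : p ≠ q) :
    ¬ InK (PL.{u} p × PL.{u} q) := by
  rintro ⟨F, _, V, _, _, f, hf⟩
  let i1 : LatticeHom (PL.{u} p) (PL.{u} p × PL.{u} q) :=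
    { toFun := fun X => (X, ⊥)
      map_sup' := fun X Y => Prod.ext rfl (sup_idem _).symm
      map_inf' := fun X Y => Prod.ext rfl (inf_idem _).symm }
  let i2 : LatticeHom (PL.{u} q) (PL.{u} p × PL.{u} q) :=
    { toFun := fun X => (⊥, X)
      map_sup' := fun X Y => Prod.ext (sup_idem _).symm rfl
      map_inf' := fun X Y => Prod.ext (inf_idem _).symm rfl }
  have h1 : (p : F) = 0 := by
    refine char_lemma (f.comp i1) ?_ p ((natCast_Fp p p).2 dvd_rfl)
    intro X Y h
    exact congrArg Prod.fst (hf h)
  have h2 : (q : F) = 0 := by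
    refine char_lemma (f.comp i2) ?_ q ((natCast_Fp q q).2 dvd_rfl)
    intro X Y h
    exact congrArg Prod.snd (hf h)
  have hcop : Nat.Coprime p q := (Nat.coprime_primes hp.out hq.out).2 hpq
  have h3 := Nat.gcd_eq_gcd_ab p q
  rw [hcop] at h3
  have h4 := congrArg (fun z : ℤ => (z : F)) h3
  push_cast at h4
  rw [h1, h2] at h4
  simp at h4

lemma satisfies_identity (L : Type u) [Lattice L] (n : ℕ)
    (s t : latLang.Term (Empty ⊕ Fin n)) :
    Satisfies L (s.bdEqual t).alls ↔ ∀ v : Empty ⊕ Fin n → L,
      @Language.Term.realize latLang L (latStructure L) _ v s =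
      @Language.Term.realize latLang L (latStructure L) _ v t := by
  let _ := latStructure L
  have h := Language.BoundedFormula.realize_alls (φ := s.bdEqual t) (M := L)
    (v := (default : Empty → L))
  constructor
  · intro h1 v
    have h2 := h.1 h1 (fun i => v (Sum.inr i))
    rw [Language.BoundedFormula.realize_bdEqual] at h2
    have h3 : Sum.elim (default : Empty → L) (fun i => v (Sum.inr i)) = v := by
      funext i
      rcases i with i | i
      · exact i.elim
      · rfl
    rw [h3] at h2
    exact h2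
  · intro h1
    exact h.2 fun xs => h1 _

section product
variable (L M : Type u) [Lattice L] [Lattice M]

lemma term_fst (n : ℕ) (t : latLang.Term (Empty ⊕ Fin n)) (v : Empty ⊕ Fin n → L × M) :
    (@Language.Term.realize latLang (L × M) (latStructure _) _ v t).1 =
      @Language.Term.realize latLang L (latStructure _) _ (fun i => (v i).1) t := by
  induction t with
  | var i => rfl
  | func f ts ih =>
    cases f with
    | join => exact congrArg₂ (· ⊔ ·) (ih 0) (ih 1)
    | meet => exact congrArg₂ (· ⊓ ·) (ih 0) (ih 1)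

lemma term_snd (n : ℕ) (t : latLang.Term (Empty ⊕ Fin n)) (v : Empty ⊕ Fin n → L × M) :
    (@Language.Term.realize latLang (L × M) (latStructure _) _ v t).2 =
      @Language.Term.realize latLang M (latStructure _) _ (fun i => (v i).2) t := by
  induction t with
  | var i => rfl
  | func f ts ih =>
    cases f with
    | join => exact congrArg₂ (· ⊔ ·) (ih 0) (ih 1)
    | meet => exact congrArg₂ (· ⊓ ·) (ih 0) (ih 1)

/-- Identities are preserved by products. -/
lemma identity_prod (φ : latLang.Sentence) (hφ : IsIdentity φ) (h1 : Satisfies L φ)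
    (h2 : Satisfies M φ) : Satisfies (L × M) φ := by
  obtain ⟨n, s, t, rfl⟩ := hφ
  rw [satisfies_identity] at *
  intro v
  refine Prod.ext ?_ ?_
  · rw [term_fst, term_fst]
    exact h1 _
  · rw [term_snd, term_snd]
    exact h2 _

end product

/-- No set of identities specifies the class. -/
theorem not_identities (S : Set latLang.Sentence) (hS : ∀ φ ∈ S, IsIdentity φ)
    (h : Specifies.{u} S) : False := by
  have : Fact (Nat.Prime 2) := ⟨Nat.prime_two⟩
  have : Fact (Nat.Prime 3) := ⟨Nat.prime_three⟩
  refine not_inK_prod.{u} 2 3 (by norm_num) ?_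
  rw [h]
  intro φ hφ
  exact identity_prod _ _ φ (hS φ hφ) ((h _).1 (inK_PL.{u} 2) φ hφ)
    ((h _).1 (inK_PL.{u} 3) φ hφ)

section los

variable (U : Ultrafilter ℕ)
variable (R S : ℕ → Type u) [∀ n, Field (R n)] [∀ n, Field (S n)]
variable (A B : ℕ → Type u) [∀ n, AddCommGroup (A n)] [∀ n, AddCommGroup (B n)]
variable [∀ n, Module (R n) (A n)] [∀ n, Module (S n) (B n)]
variable (hU : ∀ k : ℕ, k ≠ 0 → ∀ᶠ n in U, (k : R n) ≠ 0 ∧ (k : S n) ≠ 0)

/-- `phi` as a lattice homomorphism -/
noncomputable def phiHom : LatticeHom (∀ n, Submodule (R n) (A n) × Submodule (S n) (B n))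
    (Submodule (ULift.{u} ℚ) (UQ U R S A B hU)) where
  toFun := phi U R S A B hU
  map_sup' x y := phi_sup U R S A B hU x y
  map_inf' x y := phi_inf U R S A B hU x y

/-- the image of `phi`, a sublattice -/
noncomputable def img : Sublattice (Submodule (ULift.{u} ℚ) (UQ U R S A B hU)) where
  carrier := Set.range (phi U R S A B hU)
  supClosed' := by
    rintro _ ⟨x, rfl⟩ _ ⟨y, rfl⟩
    exact ⟨_, phi_sup U R S A B hU x y⟩
  infClosed' := by
    rintro _ ⟨x, rfl⟩ _ ⟨y, rfl⟩
    exact ⟨_, phi_inf U R S A B hU x y⟩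

lemma inK_img : InK (img U R S A B hU) :=
  ⟨ULift.{u} ℚ, inferInstance, UQ U R S A B hU, inferInstance, inferInstance,
    (img U R S A B hU).subtype, Subtype.val_injective⟩

instance : Nonempty (img U R S A B hU) := ⟨⟨phi U R S A B hU ⊥, ⟨_, rfl⟩⟩⟩

/-- The ultraproduct of the lattices is isomorphic to the image of `phi`; hence every sentence
true in the image is true in almost all factors. -/
lemma los (φ : latLang.Sentence) (h : Satisfies (img U R S A B hU) φ) :
    ∀ᶠ n in U, Satisfies (Submodule (R n) (A n) × Submodule (S n) (B n)) φ := by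
  let _ : ∀ n, latLang.Structure (Submodule (R n) (A n) × Submodule (S n) (B n)) :=
    fun n => latStructure _
  let _ := latStructure (img U R S A B hU)
  have key := Language.Ultraproduct.sentence_realize (L := latLang)
    (M := fun n => Submodule (R n) (A n) × Submodule (S n) (B n)) (u := U) φ
  refine key.1 ?_
  let F0 : (U : Filter ℕ).Product (fun n => Submodule (R n) (A n) × Submodule (S n) (B n)) →
      img U R S A B hU :=
    Quotient.lift (fun x => (⟨phi U R S A B hU x, ⟨x, rfl⟩⟩ : img U R S A B hU)) (by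
      intro x y hxy
      refine Subtype.ext ?_
      exact (phi_eq_iff U R S A B hU x y).2 hxy)
  have hF0 : ∀ x : ∀ n, Submodule (R n) (A n) × Submodule (S n) (B n),
      ((F0 (x : (U : Filter ℕ).Product _)) : Submodule (ULift.{u} ℚ) (UQ U R S A B hU)) =
        phi U R S A B hU x := fun x => rfl
  have hbij : Function.Bijective F0 := by
    constructor
    · intro a b
      refine Quotient.inductionOn₂ a b ?_
      intro x y hxy
      refine Quotient.sound ?_
      have := congrArg Subtype.val hxy
      exact (phi_eq_iff U R S A B hU x y).1 this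
    · rintro ⟨_, ⟨x, rfl⟩⟩
      exact ⟨(x : (U : Filter ℕ).Product _), rfl⟩
  let e : (U : Filter ℕ).Product (fun n => Submodule (R n) (A n) × Submodule (S n) (B n))
      ≃[latLang] img U R S A B hU :=
    { Equiv.ofBijective F0 hbij with
      map_fun' := by
        intro n f x
        have hx : ∀ i, ∃ y : ∀ n, Submodule (R n) (A n) × Submodule (S n) (B n),
            (y : (U : Filter ℕ).Product
              (fun n => Submodule (R n) (A n) × Submodule (S n) (B n))) = x i :=
          fun i => Quotient.exists_rep (x i)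
        choose y hy using hx
        obtain rfl : (fun i => (y i : (U : Filter ℕ).Product
              (fun n => Submodule (R n) (A n) × Submodule (S n) (B n)))) = x := funext hy
        have hc := Language.Ultraproduct.funMap_cast (L := latLang)
          (M := fun n => Submodule (R n) (A n) × Submodule (S n) (B n)) (u := U) f y
        refine Subtype.ext ((congrArg (fun z => (F0 z).1) hc).trans ?_)
        change phi U R S A B hU _ = _
        cases f with
        | join => exact phi_sup U R S A B hU (y 0) (y 1)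
        | meet => exact phi_inf U R S A B hU (y 0) (y 1)
      map_rel' := by
        intro n r
        exact r.elim }
  exact (Language.StrongHomClass.realize_sentence e φ).2 h

end los

/-- No finite set of sentences specifies the class. -/
theorem not_finite (T : Set latLang.Sentence) (hT : T.Finite) (h : Specifies.{u} T) : False := by
  have hp : ∀ n : ℕ, ∃ p, n < p ∧ p.Prime := fun n => by
    obtain ⟨p, h1, h2⟩ := Nat.exists_infinite_primes (n + 1)
    exact ⟨p, h1, h2⟩
  choose P hP1 hP2 using hp
  let Q : ℕ → ℕ := fun n => P (P n)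
  have hQ1 : ∀ n, P n < Q n := fun n => hP1 _
  have hQ2 : ∀ n, (Q n).Prime := fun n => hP2 _
  have : ∀ n, Fact (P n).Prime := fun n => ⟨hP2 n⟩
  have : ∀ n, Fact (Q n).Prime := fun n => ⟨hQ2 n⟩
  let U : Ultrafilter ℕ := Filter.hyperfilter ℕ
  have hU : ∀ k : ℕ, k ≠ 0 → ∀ᶠ n in U, (k : Fp.{u} (P n)) ≠ 0 ∧ (k : Fp.{u} (Q n)) ≠ 0 := by
    intro k hk
    have h1 : ∀ᶠ n in Filter.cofinite, k ≤ n := by
      rw [Nat.cofinite_eq_atTop]
      exact Filter.eventually_ge_atTop k
    have h2 : ∀ᶠ n in (U : Filter ℕ), k ≤ n := Filter.hyperfilter_le_cofinite h1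
    filter_upwards [h2] with n hn
    have := hP1 n
    have := hQ1 n
    constructor
    · intro h0
      have := Nat.le_of_dvd (Nat.pos_of_ne_zero hk) ((natCast_Fp _ _).1 h0)
      omega
    · intro h0
      have := Nat.le_of_dvd (Nat.pos_of_ne_zero hk) ((natCast_Fp _ _).1 h0)
      omega
  have h1 : ∀ φ ∈ T, ∀ᶠ n in U, Satisfies (PL.{u} (P n) × PL.{u} (Q n)) φ := by
    intro φ hφ
    apply los U (fun n => Fp.{u} (P n)) (fun n => Fp.{u} (Q n)) (fun n => Fin 3 → Fp.{u} (P n))
      (fun n => Fin 3 → Fp.{u} (Q n)) hU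
    exact (h _).1 (inK_img U _ _ _ _ hU) φ hφ
  have h2 : ∀ᶠ n in (U : Filter ℕ), ∀ φ ∈ T, Satisfies (PL.{u} (P n) × PL.{u} (Q n)) φ :=
    (Filter.eventually_all_finite hT).2 h1
  obtain ⟨n, hn⟩ := h2.exists
  exact not_inK_prod.{u} (P n) (Q n) (hQ1 n).ne ((h _).2 hn)

end Pool.Agent.SubLat
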