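import Pool.Agent.SubLat.Char

set_option autoImplicit false

namespace Pool.Agent.SubLat

universe u

open Filter

section ultra

variable (U : Ultrafilter ℕ)
variable (R S : ℕ → Type u) [∀ n, Field (R n)] [∀ n, Field (S n)]
variable (A B : ℕ → Type u) [∀ n, AddCommGroup (A n)] [∀ n, AddCommGroup (B n)]
variable [∀ n, Module (R n) (A n)] [∀ n, Module (S n) (B n)]

/-- the subgroup of sequences which vanish eventually along the ultrafilter -/
def evZero : AddSubgroup (∀ n, A n × B n) where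
  carrier := {w | ∀ᶠ n in U, w n = 0}
  zero_mem' := Eventually.of_forall fun n => rfl
  add_mem' := by
    intro v w hv hw
    filter_upwards [hv, hw] with n h1 h2
    rw [Pi.add_apply, h1, h2, add_zero]
  neg_mem' := by
    intro v hv
    filter_upwards [hv] with n h1
    rw [Pi.neg_apply, h1, neg_zero]

/-- the ultraproduct of the groups `A n × B n` -/
def UP : Type u := (∀ n, A n × B n) ⧸ evZero U A B

noncomputable instance : AddCommGroup (UP U A B) :=
  inferInstanceAs (AddCommGroup ((∀ n, A n × B n) ⧸ evZero U A B))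

/-- the class of a sequence -/
def cls (w : ∀ n, A n × B n) : UP U A B := QuotientAddGroup.mk w

variable {A B}

lemma cls_surj (z : UP U A B) : ∃ w, cls U A B w = z := QuotientAddGroup.mk_surjective z

lemma cls_eq (v w : ∀ n, A n × B n) : cls U A B v = cls U A B w ↔ ∀ᶠ n in U, v n = w n := by
  rw [cls, cls]
  erw [QuotientAddGroup.eq]
  constructor
  · intro h
    have h' : ∀ᶠ n in U, (-v + w) n = 0 := h
    filter_upwards [h'] with n hn
    rw [Pi.add_apply, Pi.neg_apply, neg_add_eq_zero] at hn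
    exact hn
  · intro h
    change ∀ᶠ n in U, (-v + w) n = 0
    filter_upwards [h] with n hn
    rw [Pi.add_apply, Pi.neg_apply, neg_add_eq_zero]
    exact hn

lemma cls_add (v w : ∀ n, A n × B n) : cls U A B (v + w) = cls U A B v + cls U A B w := rfl

lemma cls_zero : cls U A B 0 = 0 := rfl

variable (A B)

/-- the action of a rational number on sequences -/
def ratAct (q : ℚ) : (∀ n, A n × B n) →+ (∀ n, A n × B n) where
  toFun w n := ((q : R n) • (w n).1, (q : S n) • (w n).2)
  map_zero' := by ext n <;> simp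
  map_add' v w := by ext n <;> simp

/-- the action of a rational number on the ultraproduct -/
noncomputable def ratActQ (q : ℚ) : UP U A B →+ UP U A B :=
  QuotientAddGroup.map (evZero U A B) (evZero U A B) (ratAct R S A B q) (by
    intro w hw
    have h : ∀ᶠ n in U, w n = 0 := hw
    change ∀ᶠ n in U, ratAct R S A B q w n = 0
    filter_upwards [h] with n hn
    change ((q : R n) • (w n).1, (q : S n) • (w n).2) = 0
    rw [hn]
    simp)

lemma ratActQ_cls (q : ℚ) (w : ∀ n, A n × B n) :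
    ratActQ U R S A B q (cls U A B w) = cls U A B (ratAct R S A B q w) := rfl

/-- the rational vector space structure of the ultraproduct -/
@[reducible] noncomputable def ratModule (hU : ∀ k : ℕ, k ≠ 0 → ∀ᶠ n in U, (k : R n) ≠ 0 ∧ (k : S n) ≠ 0) :
    Module ℚ (UP U A B) where
  smul q := ratActQ U R S A B q
  one_smul z := by
    obtain ⟨w, rfl⟩ := cls_surj U z
    change ratActQ U R S A B 1 _ = _
    rw [ratActQ_cls, cls_eq]
    refine Eventually.of_forall fun n => ?_
    change (((1 : ℚ) : R n) • (w n).1, ((1 : ℚ) : S n) • (w n).2) = w n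
    simp
  mul_smul q r z := by
    obtain ⟨w, rfl⟩ := cls_surj U z
    change ratActQ U R S A B (q * r) _ = ratActQ U R S A B q (ratActQ U R S A B r _)
    rw [ratActQ_cls, ratActQ_cls, ratActQ_cls, cls_eq]
    filter_upwards [hU q.den q.den_ne_zero, hU r.den r.den_ne_zero] with n h1 h2
    change (((q * r : ℚ) : R n) • (w n).1, ((q * r : ℚ) : S n) • (w n).2) =
      ((q : R n) • (r : R n) • (w n).1, (q : S n) • (r : S n) • (w n).2)
    rw [Rat.cast_mul_of_ne_zero h1.1 h2.1, Rat.cast_mul_of_ne_zero h1.2 h2.2, mul_smul, mul_smul]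
  smul_zero q := (ratActQ U R S A B q).map_zero
  smul_add q := (ratActQ U R S A B q).map_add
  add_smul q r z := by
    obtain ⟨w, rfl⟩ := cls_surj U z
    change ratActQ U R S A B (q + r) _ = ratActQ U R S A B q _ + ratActQ U R S A B r _
    rw [ratActQ_cls, ratActQ_cls, ratActQ_cls, ← cls_add, cls_eq]
    filter_upwards [hU q.den q.den_ne_zero, hU r.den r.den_ne_zero] with n h1 h2
    change (((q + r : ℚ) : R n) • (w n).1, ((q + r : ℚ) : S n) • (w n).2) =
      ((q : R n) • (w n).1, (q : S n) • (w n).2) + ((r : R n) • (w n).1, (r : S n) • (w n).2)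
    rw [Rat.cast_add_of_ne_zero h1.1 h2.1, Rat.cast_add_of_ne_zero h1.2 h2.2, add_smul, add_smul]
    rfl
  zero_smul z := by
    obtain ⟨w, rfl⟩ := cls_surj U z
    change ratActQ U R S A B 0 _ = _
    rw [ratActQ_cls, ← cls_zero, cls_eq]
    refine Eventually.of_forall fun n => ?_
    change (((0 : ℚ) : R n) • (w n).1, ((0 : ℚ) : S n) • (w n).2) = 0
    simp

/-- the ultraproduct as a rational vector space -/
def UQ (_hU : ∀ k : ℕ, k ≠ 0 → ∀ᶠ n in U, (k : R n) ≠ 0 ∧ (k : S n) ≠ 0) : Type u := UP U A B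

variable (hU : ∀ k : ℕ, k ≠ 0 → ∀ᶠ n in U, (k : R n) ≠ 0 ∧ (k : S n) ≠ 0)

noncomputable instance : AddCommGroup (UQ U R S A B hU) :=
  inferInstanceAs (AddCommGroup (UP U A B))

noncomputable instance : Module ℚ (UQ U R S A B hU) := ratModule U R S A B hU

/-- the class of a sequence -/
def cl (w : ∀ n, A n × B n) : UQ U R S A B hU := cls U A B w

lemma cl_surj (z : UQ U R S A B hU) : ∃ w, cl U R S A B hU w = z := cls_surj U z

lemma cl_eq (v w : ∀ n, A n × B n) : cl U R S A B hU v = cl U R S A B hU w ↔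
    ∀ᶠ n in U, v n = w n := cls_eq U v w

lemma cl_add (v w : ∀ n, A n × B n) :
    cl U R S A B hU (v + w) = cl U R S A B hU v + cl U R S A B hU w := rfl

lemma cl_zero : cl U R S A B hU 0 = 0 := rfl

lemma cl_smul (q : ℚ) (w : ∀ n, A n × B n) :
    q • cl U R S A B hU w = cl U R S A B hU (ratAct R S A B q w) := rfl

/-- the map from sequences of pairs of subspaces to rational subspaces of the ultraproduct -/
noncomputable def phi (x : ∀ n, Submodule (R n) (A n) × Submodule (S n) (B n)) :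
    Submodule (ULift.{u} ℚ) (UQ U R S A B hU) where
  carrier := {z | ∃ w, cl U R S A B hU w = z ∧ ∀ᶠ n in U, (w n).1 ∈ (x n).1 ∧ (w n).2 ∈ (x n).2}
  zero_mem' := ⟨0, rfl, Eventually.of_forall fun n => ⟨Submodule.zero_mem _, Submodule.zero_mem _⟩⟩
  add_mem' := by
    rintro _ _ ⟨v, rfl, hv⟩ ⟨w, rfl, hw⟩
    refine ⟨v + w, rfl, ?_⟩
    filter_upwards [hv, hw] with n h1 h2
    exact ⟨Submodule.add_mem _ h1.1 h2.1, Submodule.add_mem _ h1.2 h2.2⟩
  smul_mem' := by
    rintro c _ ⟨v, rfl, hv⟩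
    refine ⟨ratAct R S A B c.down v, rfl, ?_⟩
    filter_upwards [hv] with n h1
    exact ⟨Submodule.smul_mem _ _ h1.1, Submodule.smul_mem _ _ h1.2⟩

lemma mem_phi (x : ∀ n, Submodule (R n) (A n) × Submodule (S n) (B n)) (w : ∀ n, A n × B n) :
    cl U R S A B hU w ∈ phi U R S A B hU x ↔
      ∀ᶠ n in U, (w n).1 ∈ (x n).1 ∧ (w n).2 ∈ (x n).2 := by
  constructor
  · rintro ⟨v, hv, h⟩
    rw [cl_eq] at hv
    filter_upwards [hv, h] with n h1 h2
    rw [← h1]; exact h2
  · intro h
    exact ⟨w, rfl, h⟩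

lemma phi_inf (x y : ∀ n, Submodule (R n) (A n) × Submodule (S n) (B n)) :
    phi U R S A B hU (fun n => x n ⊓ y n) = phi U R S A B hU x ⊓ phi U R S A B hU y := by
  ext z
  obtain ⟨w, rfl⟩ := cl_surj U R S A B hU z
  rw [Submodule.mem_inf, mem_phi, mem_phi, mem_phi, ← eventually_and]
  refine eventually_congr (Eventually.of_forall fun n => ?_)
  simp only [Prod.fst_inf, Prod.snd_inf, Submodule.mem_inf]
  tauto

lemma phi_sup (x y : ∀ n, Submodule (R n) (A n) × Submodule (S n) (B n)) :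
    phi U R S A B hU (fun n => x n ⊔ y n) = phi U R S A B hU x ⊔ phi U R S A B hU y := by
  apply le_antisymm
  · intro z hz
    obtain ⟨w, rfl⟩ := cl_surj U R S A B hU z
    rw [mem_phi] at hz
    have hex : ∀ n, ∃ a b : A n × B n, ((w n).1 ∈ (x n ⊔ y n).1 ∧ (w n).2 ∈ (x n ⊔ y n).2) →
        (a.1 ∈ (x n).1 ∧ a.2 ∈ (x n).2) ∧ (b.1 ∈ (y n).1 ∧ b.2 ∈ (y n).2) ∧ a + b = w n := by
      intro n
      by_cases h : ((w n).1 ∈ (x n ⊔ y n).1 ∧ (w n).2 ∈ (x n ⊔ y n).2)
      · obtain ⟨a1, ha1, b1, hb1, e1⟩ := Submodule.mem_sup.1 h.1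
        obtain ⟨a2, ha2, b2, hb2, e2⟩ := Submodule.mem_sup.1 h.2
        exact ⟨(a1, a2), (b1, b2), fun _ => ⟨⟨ha1, ha2⟩, ⟨hb1, hb2⟩, Prod.ext e1 e2⟩⟩
      · exact ⟨0, 0, fun h' => absurd h' h⟩
    choose a b hab using hex
    have e : cl U R S A B hU w = cl U R S A B hU a + cl U R S A B hU b := by
      rw [← cl_add, cl_eq]
      filter_upwards [hz] with n hn
      exact ((hab n hn).2.2).symm
    rw [e]
    refine Submodule.add_mem_sup ?_ ?_
    · rw [mem_phi]
      filter_upwards [hz] with n hn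
      exact (hab n hn).1
    · rw [mem_phi]
      filter_upwards [hz] with n hn
      exact (hab n hn).2.1
  · refine sup_le ?_ ?_
    · intro z hz
      obtain ⟨w, rfl⟩ := cl_surj U R S A B hU z
      rw [mem_phi] at hz ⊢
      filter_upwards [hz] with n hn
      exact ⟨Submodule.mem_sup_left hn.1, Submodule.mem_sup_left hn.2⟩
    · intro z hz
      obtain ⟨w, rfl⟩ := cl_surj U R S A B hU z
      rw [mem_phi] at hz ⊢
      filter_upwards [hz] with n hn
      exact ⟨Submodule.mem_sup_right hn.1, Submodule.mem_sup_right hn.2⟩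

lemma phi_le (x y : ∀ n, Submodule (R n) (A n) × Submodule (S n) (B n))
    (h : phi U R S A B hU x ≤ phi U R S A B hU y) : ∀ᶠ n in U, x n ≤ y n := by
  by_contra hcon
  rw [← Ultrafilter.eventually_not] at hcon
  have hex : ∀ n, ∃ w : A n × B n, (w.1 ∈ (x n).1 ∧ w.2 ∈ (x n).2) ∧
      (¬ x n ≤ y n → ¬ (w.1 ∈ (y n).1 ∧ w.2 ∈ (y n).2)) := by
    intro n
    by_cases hn : x n ≤ y n
    · exact ⟨0, ⟨Submodule.zero_mem _, Submodule.zero_mem _⟩, fun h' => absurd hn h'⟩
    · rw [Prod.le_def, not_and_or] at hn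
      rcases hn with hn | hn
      · obtain ⟨a, h1, h2⟩ := SetLike.not_le_iff_exists.1 hn
        exact ⟨(a, 0), ⟨h1, Submodule.zero_mem _⟩, fun _ h' => h2 h'.1⟩
      · obtain ⟨a, h1, h2⟩ := SetLike.not_le_iff_exists.1 hn
        exact ⟨(0, a), ⟨Submodule.zero_mem _, h1⟩, fun _ h' => h2 h'.2⟩
  choose w hw1 hw2 using hex
  have h1 : cl U R S A B hU w ∈ phi U R S A B hU x := by
    rw [mem_phi]; exact Eventually.of_forall hw1
  have h2 := h h1
  rw [mem_phi] at h2
  obtain ⟨n, hn1, hn2⟩ := (hcon.and h2).exists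
  exact hw2 n hn1 hn2

lemma phi_eq_iff (x y : ∀ n, Submodule (R n) (A n) × Submodule (S n) (B n)) :
    phi U R S A B hU x = phi U R S A B hU y ↔ ∀ᶠ n in U, x n = y n := by
  constructor
  · intro h
    filter_upwards [phi_le U R S A B hU x y h.le, phi_le U R S A B hU y x h.ge] with n h1 h2
    exact le_antisymm h1 h2
  · intro h
    ext z
    obtain ⟨w, rfl⟩ := cl_surj U R S A B hU z
    rw [mem_phi, mem_phi]
    refine eventually_congr ?_
    filter_upwards [h] with n hn
    rw [hn]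

end ultra

end Pool.Agent.SubLat
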